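import Pool.Agent.Results.MP_d48457_nt.SquarePlusAlmostPrime
import Pool.Agent.Y854.GM.Win

/-!
# A square plus an almost prime, for all numbers of short windows

Let `v ≥ 1` be a sequence with exponent of convergence at most `τ` (for `v_k = (k + 1) ^ a` this is `1 / a`, for
`v_k = b ^ k` it is `0`), `θ < 1`, `0 < u < 3 / 8` and `s > max (2 / 3) (4 u - 1 / 2)`. For all `α > 0` outside a set of
Hausdorff dimension at most `(s + τ) / (1 - θ)` and all but finitely many `k`, for ALL integers `N` with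
`|N - α v_k| ≤ v_k ^ θ` there are at least `δ √N ∏_{p ≤ √N} (1 - ρ_N(p) / p)` integers `1 ≤ m < √N` such that
`N - m ^ 2 ≥ 2` has no prime factor below `N ^ u`. For `u = 1 / 3` (`s > 5 / 6`) every such `N` is the sum of a positive
square and a number which is a prime or a product of two primes.
-/

set_option autoImplicit false

open Finset

namespace Pool.Agent.Results.MP_d48457_nt.AllNumbersInWindows

open SquarePlusAlmostPrime (rho dens sqCount)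

/-- the exponent of convergence of the sequence `v` is at most `τ` -/
def ExpLe (v : ℕ → ℝ) (τ : ℝ) : Prop := ∀ t : ℝ, τ < t → Summable (fun k : ℕ => (v k) ^ (-t))

/-- `N` is the sum of a positive square and of a prime or a product of two primes. -/
def SquarePlusP2 (N : ℕ) : Prop :=
  ∃ m q : ℕ, 0 < m ∧ N = m ^ 2 + q ∧ (q.Prime ∨ ∃ q₁ q₂ : ℕ, q₁.Prime ∧ q₂.Prime ∧ q = q₁ * q₂)

lemma rho_lt {N p : ℕ} (hp : p.Prime) : rho N p < p := by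
  classical
  unfold rho
  haveI := Fact.mk hp
  by_contra hcon
  push Not at hcon
  have h1 : ((range p).filter (fun a : ℕ => (p : ℤ) ∣ (N : ℤ) - (a : ℤ) ^ 2)) = range p := by
    apply Finset.eq_of_subset_of_card_le (filter_subset _ _)
    rw [card_range]
    exact hcon
  have h2 : ∀ a : ℕ, a < p → (p : ℤ) ∣ (N : ℤ) - (a : ℤ) ^ 2 := by
    intro a ha
    have : a ∈ ((range p).filter (fun a : ℕ => (p : ℤ) ∣ (N : ℤ) - (a : ℤ) ^ 2)) := by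
      rw [h1]
      exact mem_range.2 ha
    exact (mem_filter.1 this).2
  have h3 := h2 0 hp.pos
  have h4 := h2 1 hp.one_lt
  have h5 : (p : ℤ) ∣ 1 := by
    have := dvd_sub h3 h4
    simpa using this
  have h6 := Int.natAbs_dvd_natAbs.2 h5
  rw [Int.natAbs_natCast, Int.natAbs_one] at h6
  exact absurd (Nat.le_of_dvd one_pos h6) (not_le.2 hp.one_lt)

lemma dens_pos (N : ℕ) : 0 < dens N := by
  unfold SquarePlusAlmostPrime.dens
  apply prod_pos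
  intro p hp
  rw [mem_filter] at hp
  have h1 := rho_lt (N := N) hp.2
  have h2 : (0 : ℝ) < p := by exact_mod_cast hp.2.pos
  have h3 : (rho N p : ℝ) < p := by exact_mod_cast h1
  have : (rho N p : ℝ) / p < 1 := by rw [div_lt_one h2]; exact h3
  linarith

/-- a positive integer `q < N` all of whose prime factors are at least `N ^ (1 / 3)` has at most two prime factors -/
lemma two_factors {N q : ℕ} (hN : 2 ≤ N) (hq2 : 2 ≤ q) (hqN : q < N)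
    (h : ∀ r : ℕ, r.Prime → r ∣ q → (N : ℝ) ^ (1 / 3 : ℝ) ≤ r) :
    q.Prime ∨ ∃ q₁ q₂ : ℕ, q₁.Prime ∧ q₂.Prime ∧ q = q₁ * q₂ := by
  have hcube : ∀ r : ℕ, r.Prime → r ∣ q → N ≤ r ^ 3 := by
    intro r hr hd
    have h1 := h r hr hd
    have h2 : ((N : ℝ) ^ (1 / 3 : ℝ)) ^ 3 ≤ (r : ℝ) ^ 3 :=
      pow_le_pow_left₀ (by positivity) h1 3
    have h3 : ((N : ℝ) ^ (1 / 3 : ℝ)) ^ 3 = N := by
      rw [← Real.rpow_natCast, ← Real.rpow_mul (Nat.cast_nonneg _)]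
      norm_num
    rw [h3] at h2
    exact_mod_cast h2
  by_cases hp : q.Prime
  · exact Or.inl hp
  right
  obtain ⟨q₁, hq1, hd1⟩ := Nat.exists_prime_and_dvd (show q ≠ 1 by omega)
  obtain ⟨w, hw⟩ := hd1
  have hw1 : w ≠ 1 := by
    rintro rfl
    rw [mul_one] at hw
    exact hp (hw ▸ hq1)
  have hw0 : w ≠ 0 := by
    rintro rfl
    omega
  refine ⟨q₁, w, hq1, ?_, hw⟩
  by_contra hwp
  obtain ⟨q₂, hq2', hd2⟩ := Nat.exists_prime_and_dvd hw1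
  obtain ⟨z, hz⟩ := hd2
  have hz1 : z ≠ 1 := by
    rintro rfl
    rw [mul_one] at hz
    exact hwp (hz ▸ hq2')
  have hz0 : z ≠ 0 := by
    rintro rfl
    omega
  obtain ⟨q₃, hq3, hd3⟩ := Nat.exists_prime_and_dvd hz1
  have e1 := hcube q₁ hq1 ⟨w, hw⟩
  have e2 := hcube q₂ hq2' ⟨q₁ * z, by rw [hw, hz]; ring⟩
  have e3 := hcube q₃ hq3 (dvd_trans hd3 ⟨q₁ * q₂, by rw [hw, hz]; ring⟩)
  have e4 : q₃ ≤ z := Nat.le_of_dvd (Nat.pos_of_ne_zero hz0) hd3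
  have e5 : q₁ * q₂ * q₃ ≤ q := by
    rw [hw, hz, mul_assoc]
    exact Nat.mul_le_mul le_rfl (Nat.mul_le_mul le_rfl e4)
  have e6 : N ^ 3 ≤ q₁ ^ 3 * q₂ ^ 3 * q₃ ^ 3 := by
    calc N ^ 3 = N * N * N := by ring
      _ ≤ q₁ ^ 3 * q₂ ^ 3 * q₃ ^ 3 := Nat.mul_le_mul (Nat.mul_le_mul e1 e2) e3
  have e7 : q₁ ^ 3 * q₂ ^ 3 * q₃ ^ 3 = (q₁ * q₂ * q₃) ^ 3 := by ring
  rw [e7] at e6
  have e8 : N ≤ q₁ * q₂ * q₃ := by
    by_contra hcon
    push Not at hcon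
    exact absurd (Nat.pow_lt_pow_left hcon (by norm_num : 3 ≠ 0)) (not_lt.2 e6)
  omega

/-- the numbers with few representations -/
def Exc (u δ : ℝ) : Set ℕ := {N : ℕ | (sqCount u N : ℝ) < δ * (dens N * Real.sqrt N)}

open Classical in
lemma count (u s : ℝ) (hu : 0 < u) (hu1 : u < 3 / 8) (hs : max (2 / 3) (4 * u - 1 / 2) < s) :
    ∃ δ : ℝ, 0 < δ ∧ ∀ ε : ℝ, 0 < ε → ∃ C : ℝ, ∀ X : ℕ, 1 ≤ X →
      (((Ioc 0 X).filter (fun t => t ∈ Exc u δ)).card : ℝ) ≤ C * (X : ℝ) ^ (s + ε) := by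
  obtain ⟨δ, C, hδ, hC, h⟩ := SquarePlusAlmostPrime.result u (s - max (2 / 3) (4 * u - 1 / 2)) hu hu1 (by linarith)
  refine ⟨δ, hδ, fun ε hε => ⟨C, fun X hX => ?_⟩⟩
  have h1 := h X hX
  have hX1 : (1 : ℝ) ≤ X := by exact_mod_cast hX
  have hsub : (Ioc 0 X).filter (fun t => t ∈ Exc u δ) ⊆
      (Icc 1 X).filter (fun N => (sqCount u N : ℝ) < δ * (dens N * Real.sqrt N)) := by
    intro t ht
    rw [mem_filter, mem_Ioc] at ht
    rw [mem_filter, mem_Icc]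
    exact ⟨⟨ht.1.1, ht.1.2⟩, ht.2⟩
  calc (((Ioc 0 X).filter (fun t => t ∈ Exc u δ)).card : ℝ)
      ≤ (((Icc 1 X).filter (fun N => (sqCount u N : ℝ) < δ * (dens N * Real.sqrt N))).card : ℝ) := by
        exact_mod_cast Finset.card_le_card hsub
    _ ≤ C * (X : ℝ) ^ (max (2 / 3) (4 * u - 1 / 2) + (s - max (2 / 3) (4 * u - 1 / 2))) := by
        convert h1 using 2
    _ ≤ C * (X : ℝ) ^ (s + ε) := by
        apply mul_le_mul_of_nonneg_left _ hC.le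
        apply Real.rpow_le_rpow_of_exponent_le hX1
        linarith

lemma windows (u s : ℝ) (hu : 0 < u) (hu1 : u < 3 / 8) (hs : max (2 / 3) (4 * u - 1 / 2) < s) :
    ∃ δ : ℝ, 0 < δ ∧ ∀ (v : ℕ → ℝ) (τ θ : ℝ), (∀ k, 1 ≤ v k) → 0 ≤ τ → ExpLe v τ → θ < 1 →
      ∃ E : Set ℝ, dimH E ≤ ENNReal.ofReal ((s + τ) / (1 - θ)) ∧ ∀ α : ℝ, 0 < α → α ∉ E →
        ∃ k₀ : ℕ, ∀ k : ℕ, k₀ ≤ k → ∀ N : ℕ, |(N : ℝ) - α * v k| ≤ (v k) ^ θ →
          0 < N ∧ δ * (dens N * Real.sqrt N) ≤ sqCount u N := by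
  classical
  obtain ⟨δ, hδ, hc⟩ := count u s hu hu1 hs
  have hs0 : 0 ≤ s := le_trans (le_trans (by norm_num) (le_max_left (2 / 3) (4 * u - 1 / 2))) hs.le
  refine ⟨δ, hδ, fun v τ θ hv hτ hE hθ => ?_⟩
  obtain ⟨E, hE1, hE2⟩ := Pool.Agent.Y854.GM.win_nat (Exc u δ) (θ := θ) hv hτ hE hs0 hθ (by
    intro ε hε
    obtain ⟨C, hC⟩ := hc ε hε
    refine ⟨C, fun X hX => ?_⟩
    convert hC X hX using 3)
  refine ⟨E, hE1, fun α hα hαE => ?_⟩
  obtain ⟨k₀, hk⟩ := hE2 α hα hαE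
  refine ⟨k₀, fun k hkk N hN => ?_⟩
  obtain ⟨h1, h2⟩ := hk k hkk N hN
  exact ⟨h1, not_lt.1 h2⟩

/-- **All numbers in short windows.** (1) For `0 < u < 3 / 8` and `s > max (2 / 3) (4 u - 1 / 2)` there is `δ > 0` such
that for every sequence `v ≥ 1` of exponent of convergence at most `τ ≥ 0`, every `θ < 1`, all `α > 0` outside a set of
Hausdorff dimension at most `(s + τ) / (1 - θ)` and all large `k`, for every integer `N` with `|N - α v_k| ≤ v_k ^ θ`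
there are at least `δ √N ∏_{p ≤ √N} (1 - ρ_N(p) / p)` integers `m ≥ 1` such that `N - m ^ 2 ≥ 2` has no prime factor below
`N ^ u`.
(2) For `s > 5 / 6`, for all `α > 0` outside a set of Hausdorff dimension at most `(s + τ) / (1 - θ)` and all large `k`,
every integer `N` with `|N - α v_k| ≤ v_k ^ θ` is the sum of a positive square and of a prime or a product of two primes.
(3) The sequences `v_k = (k + 1) ^ a` and `v_k = b ^ k` have exponent of convergence at most `1 / a` and `0`. -/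
theorem result :
    (∀ u s : ℝ, 0 < u → u < 3 / 8 → max (2 / 3) (4 * u - 1 / 2) < s → ∃ δ : ℝ, 0 < δ ∧
      ∀ (v : ℕ → ℝ) (τ θ : ℝ), (∀ k, 1 ≤ v k) → 0 ≤ τ → ExpLe v τ → θ < 1 →
      ∃ E : Set ℝ, dimH E ≤ ENNReal.ofReal ((s + τ) / (1 - θ)) ∧ ∀ α : ℝ, 0 < α → α ∉ E →
        ∃ k₀ : ℕ, ∀ k : ℕ, k₀ ≤ k → ∀ N : ℕ, |(N : ℝ) - α * v k| ≤ (v k) ^ θ →
          0 < N ∧ δ * (dens N * Real.sqrt N) ≤ sqCount u N) ∧
    (∀ (s : ℝ), 5 / 6 < s → ∀ (v : ℕ → ℝ) (τ θ : ℝ), (∀ k, 1 ≤ v k) → 0 ≤ τ → ExpLe v τ → θ < 1 →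
      ∃ E : Set ℝ, dimH E ≤ ENNReal.ofReal ((s + τ) / (1 - θ)) ∧ ∀ α : ℝ, 0 < α → α ∉ E →
        ∃ k₀ : ℕ, ∀ k : ℕ, k₀ ≤ k → ∀ N : ℕ, |(N : ℝ) - α * v k| ≤ (v k) ^ θ → SquarePlusP2 N) ∧
    (∀ a : ℝ, 0 < a → ExpLe (fun k : ℕ => ((k : ℝ) + 1) ^ a) (1 / a)) ∧
    (∀ b : ℝ, 1 < b → ExpLe (fun k : ℕ => b ^ k) 0) := by
  classical
  refine ⟨fun u s hu hu1 hs => windows u s hu hu1 hs, fun s hs v τ θ hv hτ hE hθ => ?_,
    fun a ha => Pool.Agent.Y854.GM.expLe_pow a ha, fun b hb => Pool.Agent.Y854.GM.expLe_geom b hb⟩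
  obtain ⟨δ, hδ, h⟩ := windows (1 / 3) s (by norm_num) (by norm_num) (by
    rw [max_lt_iff]
    constructor <;> linarith)
  obtain ⟨E, hE1, hE2⟩ := h v τ θ hv hτ hE hθ
  refine ⟨E, hE1, fun α hα hαE => ?_⟩
  obtain ⟨k₀, hk⟩ := hE2 α hα hαE
  refine ⟨k₀, fun k hkk N hN => ?_⟩
  obtain ⟨h1, h2⟩ := hk k hkk N hN
  have hNr : (0 : ℝ) < N := by exact_mod_cast h1
  have h3 : 0 < δ * (dens N * Real.sqrt N) := mul_pos hδ (mul_pos (dens_pos N) (Real.sqrt_pos.2 hNr))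
  have h4 : 0 < sqCount (1 / 3) N := by
    have : (0 : ℝ) < sqCount (1 / 3) N := lt_of_lt_of_le h3 h2
    exact_mod_cast this
  unfold sqCount at h4
  obtain ⟨m, hm⟩ := Finset.card_pos.1 h4
  rw [mem_filter, mem_Icc] at hm
  obtain ⟨⟨hm1, hm2⟩, hm3, hm4⟩ := hm
  have hmp : 0 < m ^ 2 := by positivity
  refine ⟨m, N - m ^ 2, hm1, by omega, ?_⟩
  exact two_factors (N := N) (by omega) (by omega) (by omega) hm4

end Pool.Agent.Results.MP_d48457_nt.AllNumbersInWindows
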