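import Pool.Agent.Results.MP_d48457_nt.AllNumbersInWindows
import Pool.Agent.H223.PS.Both

/-!
# A square plus an almost prime, for all numbers in the residue classes of almost every `p`-adic integer, and for all
# numbers near the powers of almost every base

Let `0 < u < 3 / 8` and `s > max (2 / 3) (4 u - 1 / 2)`. `N` is good if there are at least `δ √N ∏_{p ≤ √N} (1 - ρ_N(p) / p)`
integers `1 ≤ m < √N` such that `N - m ^ 2 ≥ 2` has no prime factor below `N ^ u` (`δ > 0` depends on `u` and `s`).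

1. For every prime `p` and `σ > 0`, for all `p`-adic integers `α` outside of a set of Hausdorff dimension at most `s / σ` and
all large `T`, ALL integers `1 ≤ N ≤ T` with `|N - α|_p ≤ T ^ (-σ)` are good: the `T ^ (1 - σ)` integers `N ≤ T` which are
congruent to `α` modulo the power of `p` of order `T ^ σ`.
2. For every `θ < 1`, for all real `x > 1` outside of a set of dimension at most `s / (1 - θ)` all large integers `N` with
`|N - β x ^ n| ≤ x ^ (θ n)` for some `n` are good (also with `ν n` instead of `n`, `ν n / log n → ∞`).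

For `u = 1 / 3` (`s > 5 / 6`) all these `N` are sums of a positive square and a prime or a product of two primes: for almost all
`α` and all `σ > 5 / 6`, and for almost all `x` and all `θ < 1 / 6`.
-/

set_option autoImplicit false

open MeasureTheory Filter Finset

namespace Pool.Agent.Results.MP_d48457_nt.NumbersInResidueClasses

open SquarePlusAlmostPrime (dens sqCount)
open AllNumbersInWindows (SquarePlusP2 Exc)
open Pool.Agent.V11001.KM (Fast Near)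

open Classical in
lemma p2_of {δ : ℝ} (hδ : 0 < δ) {N : ℕ} (hN : 1 ≤ N) (h2 : δ * (dens N * Real.sqrt N) ≤ sqCount (1 / 3) N) :
    SquarePlusP2 N := by
  have hNr : (0 : ℝ) < N := by exact_mod_cast hN
  have h3 : 0 < δ * (dens N * Real.sqrt N) :=
    mul_pos hδ (mul_pos (AllNumbersInWindows.dens_pos N) (Real.sqrt_pos.2 hNr))
  have h4 : 0 < sqCount (1 / 3) N := by
    have : (0 : ℝ) < sqCount (1 / 3) N := lt_of_lt_of_le h3 h2
    exact_mod_cast this
  unfold SquarePlusAlmostPrime.sqCount at h4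
  obtain ⟨m, hm⟩ := Finset.card_pos.1 h4
  rw [mem_filter, mem_Icc] at hm
  obtain ⟨⟨hm1, hm2⟩, hm3, hm4⟩ := hm
  have hmp : 0 < m ^ 2 := by positivity
  refine ⟨m, N - m ^ 2, hm1, by omega, ?_⟩
  exact AllNumbersInWindows.two_factors (N := N) (by omega) (by omega) (by omega) hm4

/-- for all large `T` all integers `1 ≤ N ≤ T` with `|N - α|_p ≤ T ^ (-σ)` have the property `G` -/
def AllInClasses (p : ℕ) [Fact p.Prime] (σ : ℝ) (α : ℤ_[p]) (G : ℕ → Prop) : Prop :=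
  ∃ T₀ : ℝ, ∀ T ≥ T₀, ∀ N : ℕ, 1 ≤ N → (N : ℝ) ≤ T → ‖(N : ℤ_[p]) - α‖ ≤ T ^ (-σ) → G N

/-- all large integers `N` with `|N - β x ^ (ν n)| ≤ x ^ (θ ν n)` for some `n` have the property `G` -/
def AllNearPowers (ν : ℕ → ℝ) (θ β x : ℝ) (G : ℕ → Prop) : Prop :=
  ∃ H₀ : ℝ, ∀ N : ℕ, Near ν θ β x N → H₀ ≤ N → G N

/-- **Theorem.** (1) For `0 < u < 3 / 8` and `s > max (2 / 3) (4 u - 1 / 2)` there is `δ > 0` such that the numbers `N` with at
least `δ √N ∏_{p ≤ √N} (1 - ρ_N(p) / p)` integers `m ≥ 1` for which `N - m ^ 2 ≥ 2` has no prime factor below `N ^ u` include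
all `N` in the residue classes of all `p`-adic integers outside of a set of dimension at most `s / σ`, and all large `N` near
the `β x ^ (ν n)`, for all `x > 1` outside of a set of dimension at most `s / (1 - θ)` and all `β > 0` in a given countable
set. (2) For `s > 5 / 6` the same holds for the sums of a positive square and of a prime or a product of two primes. -/
theorem result :
    (∀ u s : ℝ, 0 < u → u < 3 / 8 → max (2 / 3) (4 * u - 1 / 2) < s → ∃ δ : ℝ, 0 < δ ∧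
      (∀ (p : ℕ) [Fact p.Prime] (σ : ℝ), 0 < σ → ∃ E : Set ℤ_[p], dimH E ≤ ENNReal.ofReal (s / σ) ∧ ∀ α ∉ E,
        AllInClasses p σ α fun N => δ * (dens N * Real.sqrt N) ≤ sqCount u N) ∧
      (∀ (ν : ℕ → ℝ) (θ : ℝ), Fast ν → θ < 1 → ∀ B : Set ℝ, B.Countable →
        ∃ E : Set ℝ, dimH E ≤ ENNReal.ofReal (s / (1 - θ)) ∧ ∀ x : ℝ, 1 < x → x ∉ E → ∀ β ∈ B, 0 < β →
          AllNearPowers ν θ β x fun N => δ * (dens N * Real.sqrt N) ≤ sqCount u N)) ∧
    (∀ s : ℝ, 5 / 6 < s →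
      (∀ (p : ℕ) [Fact p.Prime] (σ : ℝ), 0 < σ → ∃ E : Set ℤ_[p], dimH E ≤ ENNReal.ofReal (s / σ) ∧ ∀ α ∉ E,
        AllInClasses p σ α SquarePlusP2) ∧
      (∀ (ν : ℕ → ℝ) (θ : ℝ), Fast ν → θ < 1 → ∀ B : Set ℝ, B.Countable →
        ∃ E : Set ℝ, dimH E ≤ ENNReal.ofReal (s / (1 - θ)) ∧ ∀ x : ℝ, 1 < x → x ∉ E → ∀ β ∈ B, 0 < β →
          AllNearPowers ν θ β x SquarePlusP2)) := by
  classical
  have h1 : ∀ u s : ℝ, 0 < u → u < 3 / 8 → max (2 / 3) (4 * u - 1 / 2) < s → ∃ δ : ℝ, 0 < δ ∧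
      (∀ (p : ℕ) [Fact p.Prime] (σ : ℝ), 0 < σ → ∃ E : Set ℤ_[p], dimH E ≤ ENNReal.ofReal (s / σ) ∧ ∀ α ∉ E,
        AllInClasses p σ α fun N => δ * (dens N * Real.sqrt N) ≤ sqCount u N) ∧
      (∀ (ν : ℕ → ℝ) (θ : ℝ), Fast ν → θ < 1 → ∀ B : Set ℝ, B.Countable →
        ∃ E : Set ℝ, dimH E ≤ ENNReal.ofReal (s / (1 - θ)) ∧ ∀ x : ℝ, 1 < x → x ∉ E → ∀ β ∈ B, 0 < β →
          AllNearPowers ν θ β x fun N => δ * (dens N * Real.sqrt N) ≤ sqCount u N) := by
    intro u s hu hu1 hs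
    obtain ⟨δ, hδ, hc⟩ := AllNumbersInWindows.count u s hu hu1 hs
    have hs0 : 0 ≤ s := le_trans (le_trans (by norm_num) (le_max_left (2 / 3) (4 * u - 1 / 2))) hs.le
    obtain ⟨g1, g2⟩ := Pool.Agent.H223.PS.both (fun _ => Exc u δ) hs0 (fun _ ε hε => by
      obtain ⟨C, hC⟩ := hc ε hε
      refine ⟨C, fun X hX => ?_⟩
      convert hC X hX using 3)
    refine ⟨δ, hδ, fun p _ σ hσ => ?_, fun ν θ hν hθ B hB => ?_⟩
    · obtain ⟨E, e1, e2⟩ := g1 p σ hσ
      refine ⟨E, e1, fun α hα => ?_⟩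
      obtain ⟨T₀, hT₀⟩ := e2 α hα 0
      exact ⟨T₀, fun T hT N _ hNT hN => not_lt.1 (hT₀ T hT N hNT hN)⟩
    · obtain ⟨E, e1, e2⟩ := g2 ν θ hν hθ B hB
      refine ⟨E, e1, fun x hx hxE β hβ hβ0 => ?_⟩
      obtain ⟨H₀, hH₀⟩ := e2 x hx hxE β hβ hβ0 0
      exact ⟨H₀, fun N hN hH => not_lt.1 (hH₀ N hN hH)⟩
  refine ⟨h1, fun s hs => ?_⟩
  obtain ⟨δ, hδ, g1, g2⟩ := h1 (1 / 3) s (by norm_num) (by norm_num) (by
    rw [max_lt_iff]
    constructor <;> linarith)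
  refine ⟨fun p _ σ hσ => ?_, fun ν θ hν hθ B hB => ?_⟩
  · obtain ⟨E, e1, e2⟩ := g1 p σ hσ
    refine ⟨E, e1, fun α hα => ?_⟩
    obtain ⟨T₀, hT₀⟩ := e2 α hα
    exact ⟨T₀, fun T hT N hN1 hNT hN => p2_of hδ hN1 (hT₀ T hT N hN1 hNT hN)⟩
  · obtain ⟨E, e1, e2⟩ := g2 ν θ hν hθ B hB
    refine ⟨E, e1, fun x hx hxE β hβ hβ0 => ?_⟩
    obtain ⟨H₀, hH₀⟩ := e2 x hx hxE β hβ hβ0
    refine ⟨max H₀ 1, fun N hN hH => ?_⟩
    have hN1 : 1 ≤ N := by exact_mod_cast (le_max_right H₀ 1).trans hH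
    exact p2_of hδ hN1 (hH₀ N hN ((le_max_left _ _).trans hH))

end Pool.Agent.Results.MP_d48457_nt.NumbersInResidueClasses
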