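import Pool.Agent.V11249.NP.Fam
import Pool.Agent.V11249.NP.UniG

/-!
# Progressions in the representations `n = p + m ^ 2`, uniformly in `n`

For all `n` and all windows `(A, A + N]`: the set of the `m` in the window for which `|n - m ^ 2|` is prime has the
expected order of magnitude `N V` if and only if the number of its `k`-term arithmetic progressions with differences up
to `D` has the expected order of magnitude `N D V ^ k`, for all `D` between a power of `log N` and `N`. The constants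
depend only on `k`. The same holds for all sets of `m` at which `n - m ^ 2` has no prime factor `≤ N ^ κ`
(Szemerédi's theorem relative to these sets, and its converse).
-/

set_option autoImplicit false

open Finset

namespace Pool.Agent.Results.MP_d48457_nt.ProgressionsOfRepresentations

/-- the number `n - m ^ 2` -/
def co (n m : ℕ) : ℤ := (n : ℤ) - (m : ℤ) ^ 2

/-- the number of the `m` modulo `p` such that `p` divides `n - m ^ 2` -/
def omega (n p : ℕ) : ℕ := ((range p).filter (fun m : ℕ => (p : ℤ) ∣ co n m)).card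

/-- the sieve product over the primes `p ≤ N ^ κ` -/
noncomputable def V (n : ℕ) (κ : ℝ) (N : ℕ) : ℝ :=
  ∏ p ∈ (Icc 1 ⌊(N : ℝ) ^ κ⌋₊).filter Nat.Prime, (1 - (omega n p : ℝ) / p)

/-- the `m` in `(A, A + N]` for which `|n - m ^ 2|` is prime -/
def P (n A N : ℕ) : Finset ℕ := (Ioc A (A + N)).filter (fun m => (co n m).natAbs.Prime)

open Classical in
/-- the `m` in `(A, A + N]` for which `n = p + m ^ 2` with a prime `p` -/
noncomputable def R (n A N : ℕ) : Finset ℕ := (Ioc A (A + N)).filter (fun m => ∃ p : ℕ, p.Prime ∧ n = p + m ^ 2)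

/-- all prime factors of `n - m ^ 2` are larger than `N ^ κ` -/
def Rough (n : ℕ) (κ : ℝ) (N m : ℕ) : Prop := ∀ p : ℕ, p.Prime → (p : ℤ) ∣ co n m → (N : ℝ) ^ κ < p

open Classical in
/-- The number of the progressions `m, m + e, …, m + (k - 1) e` in `S` with `1 ≤ e ≤ D`. -/
noncomputable def AP (k D : ℕ) (S : Finset ℕ) : ℕ :=
  ((S ×ˢ Icc 1 D).filter (fun q => ∀ j < k, q.1 + j * q.2 ∈ S)).card

open Pool.Agent.TH464.PW (quad quad_eval quad_deg)

/-- the polynomial -/
noncomputable def F (n : ℕ) : Fin 1 → Polynomial ℤ := fun _ => quad (-1) 0 n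

theorem ev (n : ℕ) (i : Fin 1) (m : ℕ) : (F n i).eval (m : ℤ) = co n m := by
  show (quad (-1) 0 (n : ℤ)).eval (m : ℤ) = _
  rw [quad_eval]
  unfold co
  ring

theorem us (n : ℕ) : Pool.Agent.V11249.NP.UniG.US 2 (F n) := by
  refine ⟨fun i => ?_, fun p hp => ?_⟩
  · have : (F n i).natDegree = 2 := quad_deg _ _ _ (by norm_num)
    omega
  · by_cases h : (p : ℤ) ∣ co n 0
    · refine ⟨1, fun i => ?_⟩
      rw [ev]
      intro h1
      have h2 := dvd_sub h h1
      have e : co n 0 - co n 1 = ((1 : ℕ) : ℤ) := by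
        unfold co
        push_cast
        ring
      rw [e] at h2
      have := Nat.le_of_dvd (by norm_num) (Int.natCast_dvd_natCast.1 h2)
      have := hp.two_le
      omega
    · refine ⟨0, fun i => ?_⟩
      rw [ev]
      exact h

theorem R_eq {n A N : ℕ} (h : (A + N) ^ 2 ≤ n) : R n A N = P n A N := by
  classical
  unfold R P
  ext m
  rw [mem_filter, mem_filter]
  refine and_congr_right fun hm => ?_
  rw [mem_Ioc] at hm
  have h1 : m ^ 2 ≤ n := (Nat.pow_le_pow_left hm.2 2).trans h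
  have e : (co n m).natAbs = n - m ^ 2 := by
    unfold co
    have : ((n : ℤ) - (m : ℤ) ^ 2) = ((n - m ^ 2 : ℕ) : ℤ) := by
      push_cast [Nat.cast_sub h1]
      ring
    rw [this, Int.natAbs_natCast]
  rw [e]
  constructor
  · rintro ⟨p, hp, hn⟩
    have : n - m ^ 2 = p := by omega
    rwa [this]
  · intro hp
    exact ⟨n - m ^ 2, hp, by omega⟩

/-- For every `k ≥ 1`, with constants which do not depend on `n` nor on `A`:
(1) for `κ > 0` a set `S` of integers `m` of `(A, A + N]` at which `n - m ^ 2` has no prime factor `≤ N ^ κ`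
contains at most `C N D V ^ k` progressions of length `k` with differences at most `D`;
(2) it contains at least `c₀ N D V ^ k` of them if it has at least `δ N V` elements, and it has at least
`c₀ N V` elements if it contains at least `δ N D V ^ k` of them, for all `D` between `log ^ B N` and `N`;
(3), (4) the same, for `(A + N) ^ 2 ≤ n`, for the set `R n A N` of the `m` with `n = p + m ^ 2`, `p` prime
(with `κ = 1/4` in `V`). -/
theorem result (k : ℕ) (hk : 1 ≤ k) :
    (∀ κ : ℝ, 0 < κ → ∃ C : ℝ, 0 < C ∧ ∃ B N₀ : ℕ, ∀ n N A D : ℕ,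
      N₀ ≤ N → Real.log N ^ B ≤ D → ∀ S : Finset ℕ, S ⊆ Ioc A (A + N) → (∀ m ∈ S, Rough n κ N m) →
        (AP k D S : ℝ) ≤ C * (N * D * V n κ N ^ k)) ∧
    (∀ κ δ : ℝ, 0 < κ → 0 < δ → ∃ c₀ : ℝ, 0 < c₀ ∧ ∃ B N₀ : ℕ, ∀ n N A D : ℕ,
      N₀ ≤ N → Real.log N ^ B ≤ D → D ≤ N → ∀ S : Finset ℕ, S ⊆ Ioc A (A + N) → (∀ m ∈ S, Rough n κ N m) →
        (δ * (N * V n κ N) ≤ S.card → c₀ * (N * D * V n κ N ^ k) ≤ AP k D S) ∧
        (δ * (N * D * V n κ N ^ k) ≤ AP k D S → c₀ * (N * V n κ N) ≤ S.card)) ∧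
    (∃ C : ℝ, 0 < C ∧ ∃ B N₀ : ℕ, ∀ n N A D : ℕ, (A + N) ^ 2 ≤ n → N₀ ≤ N →
      Real.log N ^ B ≤ D → (AP k D (R n A N) : ℝ) ≤ C * (N * D * V n (1 / 4) N ^ k)) ∧
    (∀ δ : ℝ, 0 < δ → ∃ c₀ : ℝ, 0 < c₀ ∧ ∃ B N₀ : ℕ, ∀ n N A D : ℕ, (A + N) ^ 2 ≤ n →
      N₀ ≤ N → Real.log N ^ B ≤ D → D ≤ N →
      (δ * (N * V n (1 / 4) N) ≤ (R n A N).card →
        c₀ * (N * D * V n (1 / 4) N ^ k) ≤ AP k D (R n A N)) ∧
      (δ * (N * D * V n (1 / 4) N ^ k) ≤ AP k D (R n A N) →
        c₀ * (N * V n (1 / 4) N) ≤ (R n A N).card)) := by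
  obtain ⟨a1, a2, a3, a4⟩ := Pool.Agent.V11249.NP.UniG.transfer 1 2
    (Θ := ℕ) (fun n => F n) (fun _ => True) (fun n _ => us n)
    (fun n κ N x => Rough n κ N x) (fun n A N => P n A N) (fun n κ N => V n κ N)
    (by
      intro n _ κ N x h i p hp hd
      refine h p hp ?_
      have hd' : (p : ℤ) ∣ (F n i).eval (x : ℤ) := hd
      rwa [ev] at hd')
    (by
      intro n _ A N x
      unfold P
      rw [mem_filter, mem_Ioc]
      refine and_congr_right fun _ => ?_
      constructor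
      · intro h i
        rwa [ev]
      · intro h
        have := h 0
        rwa [ev] at this)
    (by
      intro n _ κ N
      refine Pool.Agent.V11249.NP.UniG.V_eq _ κ N _ (fun p _ => ?_)
      unfold omega
      congr 1
      ext x
      rw [Pool.Agent.V11249.NP.UniG.mem_ZZ, mem_filter, mem_range]
      refine and_congr_right fun _ => ?_
      constructor
      · intro h
        refine ⟨0, ?_⟩
        rwa [ev]
      · rintro ⟨i, h⟩
        rwa [ev] at h)
    k hk
  refine ⟨?_, ?_, ?_, ?_⟩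
  · intro κ hκ
    obtain ⟨C, hC, B, N₀, h⟩ := a1 κ hκ
    exact ⟨C, hC, B, N₀, fun n N A D hN hD S hS hR => h n trivial N A D hN hD S hS hR⟩
  · intro κ δ hκ hδ
    obtain ⟨c₀, hc, B, N₀, h⟩ := a2 κ δ hκ hδ
    exact ⟨c₀, hc, B, N₀, fun n N A D hN hD hDN S hS hR => h n trivial N A D hN hD hDN S hS hR⟩
  · obtain ⟨C, hC, B, N₀, h⟩ := a3
    refine ⟨C, hC, B, N₀, fun n N A D hn hN hD => ?_⟩
    rw [R_eq hn]
    exact h n trivial N A D hN hD
  · intro δ hδ
    obtain ⟨c₀, hc, B, N₀, h⟩ := a4 δ hδ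
    refine ⟨c₀, hc, B, N₀, fun n N A D hn hN hD hDN => ?_⟩
    rw [R_eq hn]
    exact h n trivial N A D hN hD hDN

end Pool.Agent.Results.MP_d48457_nt.ProgressionsOfRepresentations
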