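import Pool.Agent.V1137.Pm2

/-!
For most even `n` there are many representations `n = q + m ^ 2` with `q` prime and `m = p` or
`m = 3 p`, with `p` in any given set of primes which meets all short clusters of primes.
-/

set_option autoImplicit false

open Finset Filter Topology

namespace Pool.Agent.Results.MP_d48457_nt.SquaresOfUnavoidablePrimes

/-- `P` meets all short clusters of primes: there are `M` and `ε > 0` such that, for all large `u`,
every interval `[u, v]` with `v ≤ u + ε log u` which contains at least `M` primes contains a prime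
which belongs to `P`. -/
def MeetsClusters (P : Set ℕ) : Prop := ∃ (M : ℕ) (ε : ℝ), 0 < ε ∧ ∃ u₀ : ℕ, ∀ u v : ℕ, u₀ ≤ u →
  (v : ℝ) ≤ u + ε * Real.log u → M ≤ ((Icc u v).filter Nat.Prime).card →
  ∃ p ∈ P, u ≤ p ∧ p ≤ v ∧ p.Prime

open Classical in
/-- The primes `p ≤ x` in `P` for which `n - (d p) ^ 2` is a (positive) prime. -/
noncomputable def representations (P : Set ℕ) (d n x : ℕ) : Finset ℕ :=
  (Icc 1 x).filter (fun p => p.Prime ∧ p ∈ P ∧ (n - (d * p) ^ 2).Prime)

open Classical in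
/-- The even `n ≤ x ^ 2` with fewer than `c x / (log x) ^ 2` representations for `d = 1` and for
`d = 3`. -/
noncomputable def exceptions (P : Set ℕ) (c : ℝ) (x : ℕ) : Finset ℕ :=
  (Icc 1 (x ^ 2)).filter (fun n => Even n ∧
    ∀ d ∈ ({1, 3} : Finset ℕ), ((representations P d n x).card : ℝ) < c * (x / Real.log x ^ 2))

open Polynomial in
/-- the polynomial `(d X) ^ 2` -/
noncomputable def gd (d : ℕ) : ℤ[X] := C ((d : ℤ) ^ 2) * X ^ 2

lemma gd_eval (d : ℕ) (n : ℤ) : (gd d).eval n = ((d : ℤ) * n) ^ 2 := by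
  unfold gd
  simp only [Polynomial.eval_mul, Polynomial.eval_C, Polynomial.eval_pow, Polynomial.eval_X]
  ring

lemma gd_deg (d : ℕ) (hd : 0 < d) : (gd d).natDegree = 2 := by
  unfold gd
  apply Polynomial.natDegree_C_mul_X_pow
  have : (d : ℤ) ≠ 0 := by exact_mod_cast hd.ne'
  positivity

lemma gd_lead (d : ℕ) (hd : 0 < d) : 0 < (gd d).leadingCoeff := by
  unfold gd
  rw [Polynomial.leadingCoeff_C_mul_X_pow]
  have : (0 : ℤ) < d := by exact_mod_cast hd
  positivity

open Pool.Agent.V1137.Unav in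
lemma loc (d n : ℕ) (hn : n % 2 = 0) (hd : d = 1 ∧ n % 3 ≠ 1 ∨ d = 3 ∧ n % 3 = 1) :
    Loc1 (-1) (gd d) n := by
  intro l hl
  by_cases hl2 : l = 2
  · subst hl2
    refine ⟨1, by norm_num, ?_⟩
    rw [gd_eval]
    rcases hd with ⟨rfl, hk⟩ | ⟨rfl, hk⟩ <;> norm_num <;> omega
  by_cases hl3 : l = 3
  · subst hl3
    refine ⟨1, by norm_num, ?_⟩
    rw [gd_eval]
    rcases hd with ⟨rfl, hk⟩ | ⟨rfl, hk⟩ <;> norm_num <;> omega
  have hl5 : 5 ≤ l := by
    have := hl.two_le
    by_contra hc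
    have : l = 4 := by omega
    subst this
    exact absurd hl (by norm_num)
  have hnd : ∀ n : ℕ, 0 < n → n < 5 → ¬ (l : ℤ) ∣ (n : ℤ) := by
    intro n hn hn5 hd
    have := Nat.le_of_dvd hn (by exact_mod_cast hd)
    omega
  by_contra hcon
  push Not at hcon
  have e1 := hcon 1 (by simpa using hnd 1 (by norm_num) (by norm_num))
  have e2 := hcon 2 (by simpa using hnd 2 (by norm_num) (by norm_num))
  rw [gd_eval] at e1 e2
  have h5 := e1.sub e2
  have h6 : (n : ℤ) + -1 * ((d : ℤ) * 1) ^ 2 - (n + -1 * ((d : ℤ) * 2) ^ 2) = 3 * (d : ℤ) ^ 2 := by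
    ring
  rw [h6] at h5
  have h7 : (l : ℤ) ∣ ((3 ^ 3 : ℕ) : ℤ) := by
    rcases hd with ⟨rfl, hk⟩ | ⟨rfl, hk⟩
    · refine h5.trans ?_
      norm_num
    · refine h5.trans ?_
      norm_num
  have h8 : l ∣ 3 ^ 3 := by exact_mod_cast h7
  exact hl3 ((Nat.prime_dvd_prime_iff_eq hl Nat.prime_three).1 (hl.dvd_of_dvd_pow h8))

open Pool.Agent.V1137.Unav in
/-- **Even numbers as a prime plus the square of a prime, or of three times a prime, from a set which
meets all short clusters.** Let `P` be a set which, for some `M` and `ε > 0`, contains a prime from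
every interval `[u, v]`, `v ≤ u + ε log u`, `u` large, with at least `M` primes. For every `κ > 0`
there is `c > 0` such that for all large `x` and all even `n ≤ x ^ 2`, with at most `κ x ^ 2`
exceptions, there is `d ∈ {1, 3}` such that `n - (d p) ^ 2` is prime for at least
`c x / (log x) ^ 2` primes `p ≤ x` in `P`. -/
theorem result (P : Set ℕ) (hP : MeetsClusters P) (κ : ℝ) (hκ : 0 < κ) : ∃ c : ℝ, 0 < c ∧
    ∀ᶠ x : ℕ in atTop, ((exceptions P c x).card : ℝ) ≤ κ * (x : ℝ) ^ 2 := by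
  classical
  obtain ⟨M, ε, hε, hP⟩ := hP
  have hmost := PS_most M ε hε P hP
  set Bad : ℕ → ℝ → ℕ → Finset ℕ := fun d c x => (Icc 1 (1 * x ^ 2)).filter
        (fun k => Loc1 (-1) (gd d) k ∧ ((Arg1 P (-1) (gd d) x k).card : ℝ) <
          c * (x / Real.log x ^ 2)) with hBad
  set S : Finset ℕ := ({1, 3} : Finset ℕ) with hS
  have hScard : S.card = 2 := by decide
  obtain ⟨c, hc, x₀, h⟩ := common S (fun i c x => ((Bad i c x).card : ℝ) ≤ κ / 2 * (x : ℝ) ^ 2) (by
      intro v c c' x hcc h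
      refine le_trans ?_ h
      apply Nat.cast_le.2
      apply card_le_card
      intro k hk
      have hk' := mem_filter.1 hk
      refine mem_filter.2 ⟨hk'.1, hk'.2.1, lt_of_lt_of_le hk'.2.2 ?_⟩
      apply mul_le_mul_of_nonneg_right hcc
      positivity) (by
      intro i hi
      have h2 : 0 < i := by
        rw [hS] at hi
        simp only [mem_insert, mem_singleton] at hi
        omega
      obtain ⟨c, hc, x₀, h⟩ := one_pm (-1) (Or.inr rfl) (gd i) (by rw [gd_deg i h2]; norm_num)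
        (gd_lead i h2) P hmost 1 (κ / 2) (by positivity)
      refine ⟨c, hc, x₀, fun x hx => ?_⟩
      have h3 := h x hx
      rw [gd_deg i h2] at h3
      exact h3)
  refine ⟨c, hc, ?_⟩
  rw [eventually_atTop]
  refine ⟨x₀, fun x hx => ?_⟩
  have hb := h x hx
  have hsub : exceptions P c x ⊆ S.biUnion (fun i => Bad i c x) := by
    intro n hn
    unfold exceptions at hn
    rw [mem_filter] at hn
    obtain ⟨hn1, hn2, hn3⟩ := hn
    rw [Nat.even_iff] at hn2
    obtain ⟨d, hd⟩ : ∃ d : ℕ, d = 1 ∧ n % 3 ≠ 1 ∨ d = 3 ∧ n % 3 = 1 := by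
      by_cases h : n % 3 = 1
      · exact ⟨3, Or.inr ⟨rfl, h⟩⟩
      · exact ⟨1, Or.inl ⟨rfl, h⟩⟩
    have hdS : d ∈ S := by
      rw [hS]
      rcases hd with ⟨rfl, _⟩ | ⟨rfl, _⟩ <;> simp
    rw [mem_biUnion]
    refine ⟨d, hdS, ?_⟩
    refine mem_filter.2 ⟨by rw [one_mul]; exact hn1, loc d n hn2 hd, lt_of_le_of_lt ?_ (hn3 d hdS)⟩
    apply Nat.cast_le.2
    apply card_le_card
    intro p hp
    unfold Arg1 at hp
    unfold representations
    rw [mem_filter] at hp ⊢
    refine ⟨hp.1, hp.2.1, hp.2.2.1, ?_⟩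
    have h4 := hp.2.2.2
    rw [gd_eval] at h4
    have e1 : ((n : ℤ) + -1 * ((d : ℤ) * p) ^ 2).toNat = n - (d * p) ^ 2 := by
      have e2 : ((d : ℤ) * p) ^ 2 = (((d * p) ^ 2 : ℕ) : ℤ) := by push_cast; ring
      rw [e2]
      omega
    rwa [e1] at h4
  have h2 : ((S.biUnion (fun i => Bad i c x)).card : ℝ) ≤ κ * (x : ℝ) ^ 2 := by
    calc ((S.biUnion (fun i => Bad i c x)).card : ℝ) ≤
        ((∑ i ∈ S, (Bad i c x).card : ℕ) : ℝ) := by exact_mod_cast card_biUnion_le
      _ = ∑ i ∈ S, ((Bad i c x).card : ℝ) := by push_cast; rfl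
      _ ≤ ∑ _i ∈ S, (κ / 2 * (x : ℝ) ^ 2) := sum_le_sum fun i hi => hb i hi
      _ = κ * (x : ℝ) ^ 2 := by
          rw [sum_const, hScard, nsmul_eq_mul]
          push_cast
          ring
  exact le_trans (by exact_mod_cast card_le_card hsub) h2

end Pool.Agent.Results.MP_d48457_nt.SquaresOfUnavoidablePrimes
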